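import Pool.Agent.J4H85.RP.Host

set_option autoImplicit false

/-!
# Random graphs with any number of edges are reconstructible

`T(G)` is the set of nonempty cliques of `G` ordered by inclusion.

(A) There is a constant `c > 0` such that, for all large `n` and EVERY `m`, all but a proportion
`exp (-c n)` of the graphs with `n` vertices and `m` edges have a reconstructible `T(G)`.

(B) In the random graph process (the pairs of vertices become edges one after the other, in random
order) all graphs are simultaneously reconstructible, with probability at least `1 - exp (-c n)`.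

(C) More generally let `D` be a graph with `n` vertices and minimum degree at least `δ n`, and let
`m ≤ e(D) - C n`. All but a proportion `exp (-c n)` of the spanning subgraphs of `D` with `m` edges
are reconstructible; the same holds for the graphs obtained from the complement of `D` by adding
all but `m` of the edges of `D`.

The proof. With fewer than `C n` edges there is an isolated vertex up to probability `exp (-c n)`.
Otherwise few vertices are moved by near-automorphisms, and the criterion of the starting library
(`Pool.Agent.Y297.RS.HALF`) applies: many moved vertices give a set `K` with `ε n ≤ |K|` and a map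
`τ` of `K` without fixed points, which preserves the adjacencies between `K` and its complement
(or between `K` and all vertices) up to two exceptions per vertex; the links between the pairs can
be coloured with three colours, and one colour contains `5 |K|` edges, so that the probability of
these links is at most `3 (C / n) ^ (5 |K|)`, against `n ^ (3 |K|)` choices.
-/

namespace Pool.Agent.Results.MP_552896_co.EveryNumberOfEdges

/-- The truncated clique lattices of `G` and `H` have the same deck of maximal filter deleted
subsets: some bijection `f` of the vertex sets is such that, for every vertex `v`, the nonempty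
cliques of `G` avoiding `v` and the nonempty cliques of `H` avoiding `f v`, both ordered by
inclusion, are isomorphic ordered sets. -/
def SameDeck {V W : Type} (G : SimpleGraph V) (H : SimpleGraph W) : Prop :=
  ∃ f : V ≃ W, ∀ v : V,
    Nonempty ({s : Finset V // s.Nonempty ∧ G.IsClique (s : Set V) ∧ v ∉ s} ≃o
      {t : Finset W // t.Nonempty ∧ H.IsClique (t : Set W) ∧ f v ∉ t})

/-- `T(G)` is reconstructible from its deck: every truncated clique lattice `T(H)` of a finite
graph `H` with the same deck is isomorphic to `T(G)`. -/
def Reconstructible {V : Type} (G : SimpleGraph V) : Prop :=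
  ∀ (W : Type) [Fintype W] (H : SimpleGraph W), SameDeck G H →
    Nonempty ({s : Finset V // s.Nonempty ∧ G.IsClique (s : Set V)} ≃o
      {t : Finset W // t.Nonempty ∧ H.IsClique (t : Set W)})

open Classical in
/-- (A) every number of edges; (B) the random graph process, given by an ordering `σ` of the pairs
of different vertices: the `m`-th graph has the edges `σ 0, ..., σ (m - 1)`; (C) spanning subgraphs
of a graph `D` of minimum degree at least `δ n`, and supergraphs of its complement. -/
theorem result :
    (∃ c : ℝ, 0 < c ∧ ∃ n₀ : ℕ, ∀ n : ℕ, n₀ ≤ n → ∀ m : ℕ,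
      (({G : SimpleGraph (Fin n) | G.edgeSet.ncard = m ∧ ¬ Reconstructible G}.ncard : ℕ) : ℝ) ≤
        Real.exp (-(c * n)) * (((n.choose 2).choose m : ℕ) : ℝ)) ∧
    (∃ c : ℝ, 0 < c ∧ ∃ n₀ : ℕ, ∀ n : ℕ, n₀ ≤ n →
      (({σ : Fin (n.choose 2) ≃ {e : Sym2 (Fin n) // ¬ e.IsDiag} | ∃ m : ℕ,
        ¬ Reconstructible (SimpleGraph.fromEdgeSet
          {e : Sym2 (Fin n) | ∃ i : Fin (n.choose 2), (i : ℕ) < m ∧
            (σ i : Sym2 (Fin n)) = e})}.ncard : ℕ) : ℝ) ≤
        Real.exp (-(c * n)) * (((n.choose 2).factorial : ℕ) : ℝ)) ∧
    (∀ δ : ℝ, 0 < δ → ∃ C : ℝ, 0 < C ∧ ∃ c : ℝ, 0 < c ∧ ∃ n₀ : ℕ,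
      ∀ (V : Type) [Fintype V] (D : SimpleGraph V) (m : ℕ), n₀ ≤ Fintype.card V →
        (∀ x : V, δ * (Fintype.card V : ℝ) ≤
          ((Finset.univ.filter (fun z => D.Adj x z)).card : ℝ)) →
        (m : ℝ) + C * (Fintype.card V : ℝ) ≤ (D.edgeSet.ncard : ℝ) →
        (({H : SimpleGraph V | H ≤ D ∧ H.edgeSet.ncard = m ∧
            ¬ Reconstructible H}.ncard : ℕ) : ℝ) ≤
          Real.exp (-(c * Fintype.card V)) * ((D.edgeSet.ncard.choose m : ℕ) : ℝ) ∧
        (({H : SimpleGraph V | Dᶜ ≤ H ∧ H.edgeSet.ncard = Dᶜ.edgeSet.ncard +
            (D.edgeSet.ncard - m) ∧ ¬ Reconstructible H}.ncard : ℕ) : ℝ) ≤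
          Real.exp (-(c * Fintype.card V)) * ((D.edgeSet.ncard.choose m : ℕ) : ℝ)) :=
  ⟨Pool.Agent.J4H85.RP.fin_edges, Pool.Agent.J4H85.RP.fin_process,
    fun δ hδ => Pool.Agent.J4H85.RP.fin_host δ hδ⟩

end Pool.Agent.Results.MP_552896_co.EveryNumberOfEdges
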