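import Pool.Agent.J4H85.RP.Fin

set_option autoImplicit false

/-!
# Every graph becomes reconstructible after a constant number of random changes per vertex

`T(G)` is the set of nonempty cliques of `G` ordered by inclusion. Let `δ > 0` and `B > 0`; there is
a constant `C` with the following properties, for all large `n`.

(A) *Random changes.* Let `G` be ANY graph on a set `V` of `n` vertices, let `D` be a graph on `V`
(its edges are the pairs which may be changed) and `Y` a set of vertices such that every `x ∈ Y`
has at least `δ n` neighbours `z ∈ Y` in `D`, and let `C n ≤ m ≤ e(D) - C n`. All but a proportion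
`exp (-B n)` of the graphs `H` obtained from `G` by changing (adding or deleting) exactly `m` of the
edges of `D` have the following properties: if `|Y| ≥ (1/2 + δ) n`, `T(H)` is reconstructible, and
for all but `(5 |V \ Y| + δ n) n ^ 2` of the triples `(a, b, c)` of vertices the three cards at
`a`, `b`, `c` determine `T(H)`.

(B) *Independent edges of arbitrary probabilities.* Let the pairs `e` of different vertices be edges
of a random graph `H` independently with arbitrary probabilities `p e` (some may be `0` or `1`), and
let `Y` be such that every `x ∈ Y` has at least `δ n` vertices `z ∈ Y` with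
`C / n ≤ p {x, z} ≤ 1 - C / n`. With probability at least `1 - exp (-B n)` the graph `H` has the same
properties. There is no condition on the pairs with a vertex outside `Y`.

For `Y = V`, `D` complete and `p` constant this contains the random graphs `G(n, p)` of average
degree at least `C`, of which three typical cards determine the graph; the starting result
`IndependentEdges` needs `72 log n` in the place of the constant.

The proof. If at least `ε n` vertices are moved by near-automorphisms, there are a set `K ⊆ Y` with
at least `ε n` elements and a map `τ` of `K` without fixed points such that the adjacencies of `K`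
with `Y` (or with `Y \ K`, `|K| ≤ 2 ε n + 2`) are preserved up to two exceptions per vertex of `K`.
The links between the pairs are coloured with three colours such that linked pairs have different
colours; one colour contains `5 |K|` changes, and given the other pairs the changes of this colour
are determined, so that the probability is at most `3 (C / n) ^ (5 |K|)`, against `n ^ (3 |K|)`
choices of `τ` and of the exceptions.
-/

namespace Pool.Agent.Results.MP_552896_co.FewRandomChanges

/-- The card of `T(G)` at `v` and the card of `T(H)` at `w` are isomorphic: the nonempty cliques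
of `G` avoiding `v` and the nonempty cliques of `H` avoiding `w`, both ordered by inclusion, are
isomorphic ordered sets. -/
def SameCard {V W : Type} (G : SimpleGraph V) (v : V) (H : SimpleGraph W) (w : W) : Prop :=
  Nonempty ({s : Finset V // s.Nonempty ∧ G.IsClique (s : Set V) ∧ v ∉ s} ≃o
    {t : Finset W // t.Nonempty ∧ H.IsClique (t : Set W) ∧ w ∉ t})

/-- `T(G)` and `T(H)` are isomorphic ordered sets. -/
def SameLattice {V W : Type} (G : SimpleGraph V) (H : SimpleGraph W) : Prop :=
  Nonempty ({s : Finset V // s.Nonempty ∧ G.IsClique (s : Set V)} ≃o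
    {t : Finset W // t.Nonempty ∧ H.IsClique (t : Set W)})

/-- `T(G)` is reconstructible from its deck of maximal filter deleted subsets: every truncated
clique lattice `T(H)` of a finite graph `H` with the same deck is isomorphic to `T(G)`. -/
def Reconstructible {V : Type} (G : SimpleGraph V) : Prop :=
  ∀ (W : Type) [Fintype W] (H : SimpleGraph W),
    (∃ f : V ≃ W, ∀ v : V, SameCard G v H (f v)) → SameLattice G H

/-- The cards at `a`, `b`, `c` determine `T(G)`: the vertices `a`, `b`, `c` are distinct, and
every truncated clique lattice `T(H)` of a finite graph `H` which has, at three distinct vertices,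
cards isomorphic to the cards of `T(G)` at `a`, `b`, `c`, is isomorphic to `T(G)`. -/
def DeterminedBy {V : Type} (G : SimpleGraph V) (a b c : V) : Prop :=
  a ≠ b ∧ a ≠ c ∧ b ≠ c ∧
    ∀ (W : Type) [Fintype W] (H : SimpleGraph W) (a' b' c' : W), a' ≠ b' → a' ≠ c' → b' ≠ c' →
      SameCard G a H a' → SameCard G b H b' → SameCard G c H c' → SameLattice G H

/-- The conclusions for a graph `H` and the set `Y`: all but `(5 |V \ Y| + δ n) n ^ 2` of the
triples of cards determine `T(H)`, and `T(H)` is reconstructible if `|Y| ≥ (1/2 + δ) n`. -/
def Good (δ : ℝ) {V : Type} [Fintype V] (H : SimpleGraph V) (Y : Finset V) : Prop :=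
  (({t : V × V × V | ¬ DeterminedBy H t.1 t.2.1 t.2.2}.ncard : ℕ) : ℝ) ≤
      (5 * ((Fintype.card V : ℝ) - Y.card) + δ * Fintype.card V) * (Fintype.card V : ℝ) ^ 2 ∧
    ((1 / 2 + δ) * (Fintype.card V : ℝ) ≤ Y.card → Reconstructible H)

open Classical in
/-- The probability of the graph `H` in the model in which the pairs `e` of different vertices are
edges independently with the probabilities `p e`. -/
noncomputable def prob {V : Type} [Fintype V] (p : Sym2 V → ℝ) (H : SimpleGraph V) : ℝ :=
  ∏ e ∈ Finset.univ.filter (fun e : Sym2 V => ¬ e.IsDiag),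
    if e ∈ H.edgeSet then p e else 1 - p e

open Classical in
/-- (A) exactly `m` random changes of edges of `D` in an arbitrary graph `G`; (B) independent edges
of arbitrary probabilities. -/
theorem result (δ B : ℝ) (hδ : 0 < δ) (hB : 0 < B) :
    (∃ C : ℝ, 0 < C ∧ ∃ n₀ : ℕ,
      ∀ (V : Type) [Fintype V] (G D : SimpleGraph V) (Y : Finset V) (m : ℕ),
        n₀ ≤ Fintype.card V →
        (∀ x ∈ Y, δ * (Fintype.card V : ℝ) ≤ ((Y.filter (fun z => D.Adj x z)).card : ℝ)) →
        C * (Fintype.card V : ℝ) ≤ m →
        (m : ℝ) + C * Fintype.card V ≤ (D.edgeSet.ncard : ℝ) →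
        (({H : SimpleGraph V | symmDiff G H ≤ D ∧ (symmDiff G H).edgeSet.ncard = m ∧
          ¬ Good δ H Y}.ncard : ℕ) : ℝ) ≤
          Real.exp (-(B * Fintype.card V)) * ((D.edgeSet.ncard.choose m : ℕ) : ℝ)) ∧
    (∃ C : ℝ, 0 < C ∧ ∃ n₀ : ℕ,
      ∀ (V : Type) [Fintype V] (p : Sym2 V → ℝ) (Y : Finset V),
        n₀ ≤ Fintype.card V → (∀ e, 0 ≤ p e ∧ p e ≤ 1) →
        (∀ x ∈ Y, δ * (Fintype.card V : ℝ) ≤ ((Y.filter (fun z => z ≠ x ∧
          C / (Fintype.card V : ℝ) ≤ p s(x, z) ∧
          p s(x, z) ≤ 1 - C / (Fintype.card V : ℝ))).card : ℝ)) →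
        ∑ H ∈ Finset.univ.filter (fun H : SimpleGraph V => ¬ Good δ H Y), prob p H ≤
          Real.exp (-(B * Fintype.card V))) := by
  have h1 : ∀ (V : Type) [Fintype V] (G : SimpleGraph V),
      {t : V × V × V | ¬ DeterminedBy G t.1 t.2.1 t.2.2}.ncard =
        (Pool.Agent.TH953.RC.BT G).card := by
    intro V _ G
    rw [← Set.ncard_coe_finset]
    congr 1
    ext t
    simp only [Pool.Agent.TH953.RC.BT, Finset.coe_filter, Finset.mem_univ, true_and]
    exact Iff.rfl
  have h2 : ∀ (V : Type) [Fintype V] (G : SimpleGraph V) (Y : Finset V),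
      Good δ G Y ↔ Pool.Agent.J4H85.RP.Good δ G Y := by
    intro V _ G Y
    unfold Good Pool.Agent.J4H85.RP.Good
    rw [h1 V G]
    exact Iff.rfl
  constructor
  · obtain ⟨C, hC, n₀, h⟩ := Pool.Agent.J4H85.RP.fin_flips δ B hδ hB.le
    refine ⟨C, hC, n₀, ?_⟩
    intro V _ G D Y m hn hY hm1 hm2
    have h3 := h V G D Y m hn hY hm1 hm2
    simp only [h2]
    exact h3
  · obtain ⟨C, hC, n₀, h⟩ := Pool.Agent.J4H85.RP.fin_indep δ B hδ hB.le
    refine ⟨C, hC, n₀, ?_⟩
    intro V _ p Y hn hp hY
    refine le_trans (le_of_eq ?_) (h V p Y hn hp hY)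
    apply Finset.sum_congr
    · ext H
      rw [Finset.mem_filter, Finset.mem_filter, h2]
    · intro H _
      rfl

end Pool.Agent.Results.MP_552896_co.FewRandomChanges
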