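import Pool.Agent.J4H85.GD.Fin

set_option autoImplicit false

/-!
# Almost all graphs with given bounded degrees (at least eight) are determined by three cards

`T(G)` is the set of nonempty cliques of `G` ordered by inclusion. For every `Δ` and `δ > 0` there
is `c > 0` such that for all large `n` and EVERY degree sequence `8 ≤ d x ≤ Δ` on `n` vertices the
following holds for all but a proportion `exp (-c n)` of the graphs `H` with exactly this degree
sequence: `T(H)` and `T(Hᶜ)` are reconstructible, and for all but `δ n ^ 3` of the triples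
`(a, b, c)` of vertices the three cards at `a`, `b`, `c` determine `T(H)`; the same for `Hᶜ`.

The proof. There is no independence. By switchings, for every small set `F` of pairs, the
proportion of the graphs with the given degrees and `m` edges which contain `F` is at most
`(2 Δ ^ 2 / m) ^ |F|`. If at least `ε n` vertices of `H` are moved by near-automorphisms, then
either one near-automorphism moves a set `K` of at least `ε n` vertices, and then `9 |K| / 8` edges
touching `K` and their different images are edges of `H`, or there are at least `ε n` vertices with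
a near twin, which (unless some set of between `ε n` and `2 ε n + 2` vertices spans more than `9/8`
as many edges) gives a linear number of four-cycles without common edges.
-/

namespace Pool.Agent.Results.MP_552896_co.GivenDegrees

/-- The card of `T(G)` at `v` and the card of `T(H)` at `w` are isomorphic: the nonempty cliques
of `G` avoiding `v` and the nonempty cliques of `H` avoiding `w`, both ordered by inclusion, are
isomorphic ordered sets. -/
def SameCard {V W : Type} (G : SimpleGraph V) (v : V) (H : SimpleGraph W) (w : W) : Prop :=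
  Nonempty ({s : Finset V // s.Nonempty ∧ G.IsClique (s : Set V) ∧ v ∉ s} ≃o
    {t : Finset W // t.Nonempty ∧ H.IsClique (t : Set W) ∧ w ∉ t})

/-- `T(G)` and `T(H)` are isomorphic ordered sets. -/
def SameLattice {V W : Type} (G : SimpleGraph V) (H : SimpleGraph W) : Prop :=
  Nonempty ({s : Finset V // s.Nonempty ∧ G.IsClique (s : Set V)} ≃o
    {t : Finset W // t.Nonempty ∧ H.IsClique (t : Set W)})

/-- `T(G)` is reconstructible from its deck of maximal filter deleted subsets: every truncated
clique lattice `T(H)` of a finite graph `H` with the same deck is isomorphic to `T(G)`. -/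
def Reconstructible {V : Type} (G : SimpleGraph V) : Prop :=
  ∀ (W : Type) [Fintype W] (H : SimpleGraph W),
    (∃ f : V ≃ W, ∀ v : V, SameCard G v H (f v)) → SameLattice G H

/-- The cards at `a`, `b`, `c` determine `T(G)`: the vertices `a`, `b`, `c` are distinct, and
every truncated clique lattice `T(H)` of a finite graph `H` which has, at three distinct vertices,
cards isomorphic to the cards of `T(G)` at `a`, `b`, `c`, is isomorphic to `T(G)`. -/
def DeterminedBy {V : Type} (G : SimpleGraph V) (a b c : V) : Prop :=
  a ≠ b ∧ a ≠ c ∧ b ≠ c ∧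
    ∀ (W : Type) [Fintype W] (H : SimpleGraph W) (a' b' c' : W), a' ≠ b' → a' ≠ c' → b' ≠ c' →
      SameCard G a H a' → SameCard G b H b' → SameCard G c H c' → SameLattice G H

/-- `T(H)` is reconstructible, and all but `δ n ^ 3` of the triples of cards determine `T(H)`. -/
def Good (δ : ℝ) {V : Type} [Fintype V] (H : SimpleGraph V) : Prop :=
  (({t : V × V × V | ¬ DeterminedBy H t.1 t.2.1 t.2.2}.ncard : ℕ) : ℝ) ≤
      δ * (Fintype.card V : ℝ) ^ 3 ∧
    Reconstructible H

open Classical in
/-- The graph `H` has the degrees `d`. -/
def HasDegrees {V : Type} [Fintype V] (d : V → ℕ) (H : SimpleGraph V) : Prop :=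
  ∀ x : V, (Finset.univ.filter (fun y => H.Adj x y)).card = d x

/-- Almost all graphs with given degrees between `8` and `Δ`, and their complements. -/
theorem result (Δ : ℕ) (δ : ℝ) (hδ : 0 < δ) :
    ∃ c : ℝ, 0 < c ∧ ∃ n₀ : ℕ, ∀ (V : Type) [Fintype V] (d : V → ℕ),
      n₀ ≤ Fintype.card V → (∀ x, 8 ≤ d x ∧ d x ≤ Δ) →
        (({H : SimpleGraph V | HasDegrees d H ∧ ¬ (Good δ H ∧ Good δ Hᶜ)}.ncard : ℕ) : ℝ) ≤
          Real.exp (-(c * Fintype.card V)) *
            (({H : SimpleGraph V | HasDegrees d H}.ncard : ℕ) : ℝ) := by
  classical
  have h1 : ∀ (V : Type) [Fintype V] (G : SimpleGraph V),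
      {t : V × V × V | ¬ DeterminedBy G t.1 t.2.1 t.2.2}.ncard =
        (Pool.Agent.TH953.RC.BT G).card := by
    intro V _ G
    rw [← Set.ncard_coe_finset]
    congr 1
    ext t
    simp only [Pool.Agent.TH953.RC.BT, Finset.coe_filter, Finset.mem_univ, true_and]
    exact Iff.rfl
  have h2 : ∀ (V : Type) [Fintype V] (G : SimpleGraph V),
      Good δ G ↔ ((((Pool.Agent.TH953.RC.BT G).card : ℕ) : ℝ) ≤ δ * (Fintype.card V : ℝ) ^ 3 ∧
        Pool.Agent.H234RC.Reconstructible G) := by
    intro V _ G
    unfold Good
    rw [h1 V G]
    exact Iff.rfl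
  obtain ⟨c, hc, n₀, h⟩ := Pool.Agent.J4H85.GD.fin_given Δ δ hδ
  refine ⟨c, hc, n₀, ?_⟩
  intro V _ d hn hd
  have h3 := h V d hn hd
  simp only [h2]
  exact h3

end Pool.Agent.Results.MP_552896_co.GivenDegrees
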