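import Pool.Agent.J4H85.SY.App

set_option autoImplicit false

/-!
# Almost all graphs with a given group of symmetries are reconstructible

`T(G)` is the set of nonempty cliques of `G` ordered by inclusion. `Γ` is a group of permutations
of a set of `n` vertices, `k` is its order and `r` is the number of the regular vertices, i.e. of
the vertices which are fixed by no member of `Γ` but the identity.

(A) Let `G₀` be any graph, `D` a `Γ`-invariant graph and `0 < δ ≤ 1 / 2`. Suppose that every vertex
is adjacent in `D` to at least `(1 / 2 + δ) r` regular vertices and that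
`1600 k n log n ≤ δ ^ 2 r ^ 2`. Consider the `Γ`-invariant graphs `G` which are obtained from `G₀`
by changing adjacencies of `D`. All but a proportion `exp (- r / (216 k))` of them are `Good`, and
their complements too: every isomorphism between two induced subgraphs on all but two (or fewer) of
the vertices is the restriction of a member of `Γ`, so that `Γ` is the full automorphism group,
`T(G)` is reconstructible, and any three cards of `T(G)` at vertices which are not all in the same
orbit determine `T(G)`.

(B) In particular, if `n ≥ 2` and `25600 k n log n ≤ r ^ 2`, this holds for all but a proportion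
`exp (- r / (216 k))` of ALL `Γ`-invariant graphs. For example, `Γ` may be any group acting without
fixed points of its nonidentity members (`r = n`) with `25600 k log n ≤ n`, so with at least
`25600 log n` orbits; or the group generated by a permutation of prime order which moves at least
`δ n` of the vertices.

The proof. (1) If all isomorphisms between subgraphs on `n - 2` vertices are restrictions of
members of `Γ`, then the isomorphisms of the cards of a graph with two cards, at vertices from
different orbits, differ by a member of `Γ`, and the adjacencies of the first vertex can be read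
off, except for one; the third card gives it. (2) A map `σ` which is not such a restriction has
many pairs which it does not map to their own `Γ`-orbit of pairs: it differs from the closest
`γ ∈ Γ` in `m` vertices and has at least `m r / 12` such pairs, or it has at least `δ ^ 2 r ^ 2 / 8`
of them. (3) A proportion `1 / (6 k)` of these pairs gives independent conditions for `G`; union
bound over all `σ`.
-/

namespace Pool.Agent.Results.MP_552896_co.GraphsWithSymmetries

/-- The card of `T(G)` at `v` and the card of `T(H)` at `w` are isomorphic: the nonempty cliques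
of `G` avoiding `v` and the nonempty cliques of `H` avoiding `w`, both ordered by inclusion, are
isomorphic ordered sets. -/
def SameCard {V W : Type} (G : SimpleGraph V) (v : V) (H : SimpleGraph W) (w : W) : Prop :=
  Nonempty ({s : Finset V // s.Nonempty ∧ G.IsClique (s : Set V) ∧ v ∉ s} ≃o
    {t : Finset W // t.Nonempty ∧ H.IsClique (t : Set W) ∧ w ∉ t})

/-- `T(G)` and `T(H)` are isomorphic ordered sets. -/
def SameLattice {V W : Type} (G : SimpleGraph V) (H : SimpleGraph W) : Prop :=
  Nonempty ({s : Finset V // s.Nonempty ∧ G.IsClique (s : Set V)} ≃o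
    {t : Finset W // t.Nonempty ∧ H.IsClique (t : Set W)})

/-- `T(G)` is reconstructible from its deck of maximal filter deleted subsets: every truncated
clique lattice `T(H)` of a finite graph `H` with the same deck is isomorphic to `T(G)`. -/
def Reconstructible {V : Type} (G : SimpleGraph V) : Prop :=
  ∀ (W : Type) [Fintype W] (H : SimpleGraph W),
    (∃ f : V ≃ W, ∀ v : V, SameCard G v H (f v)) → SameLattice G H

/-- The cards at `a`, `b`, `c` determine `T(G)`: the vertices `a`, `b`, `c` are distinct, and
every truncated clique lattice `T(H)` of a finite graph `H` which has, at three distinct vertices,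
cards isomorphic to the cards of `T(G)` at `a`, `b`, `c`, is isomorphic to `T(G)`. -/
def DeterminedBy {V : Type} (G : SimpleGraph V) (a b c : V) : Prop :=
  a ≠ b ∧ a ≠ c ∧ b ≠ c ∧
    ∀ (W : Type) [Fintype W] (H : SimpleGraph W) (a' b' c' : W), a' ≠ b' → a' ≠ c' → b' ≠ c' →
      SameCard G a H a' → SameCard G b H b' → SameCard G c H c' → SameLattice G H

/-- `G` is invariant under `Γ`. -/
def Invariant {V : Type} (Γ : Subgroup (Equiv.Perm V)) (G : SimpleGraph V) : Prop :=
  ∀ γ ∈ Γ, ∀ x y : V, G.Adj (γ x) (γ y) ↔ G.Adj x y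

/-- The regular vertices: they are fixed by no member of `Γ` but the identity. -/
def regular {V : Type} (Γ : Subgroup (Equiv.Perm V)) : Set V :=
  {x | ∀ γ ∈ Γ, γ x = x → γ = 1}

/-- `G` is invariant, and it is obtained from `G₀` by changing adjacencies of `D` only. -/
def Changed {V : Type} (Γ : Subgroup (Equiv.Perm V)) (G₀ D G : SimpleGraph V) : Prop :=
  Invariant Γ G ∧ ∀ x y : V, ¬ D.Adj x y → (G.Adj x y ↔ G₀.Adj x y)

/-- Every permutation of the vertices which preserves the adjacencies of all pairs avoiding two
vertices `a`, `b` agrees outside `a`, `b` with a member of `Γ`; every automorphism of `G` is in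
`Γ`; `T(G)` is reconstructible; any three cards at different vertices which are not all in the same
orbit of `Γ` determine `T(G)`. -/
def Good {V : Type} (Γ : Subgroup (Equiv.Perm V)) (G : SimpleGraph V) : Prop :=
  (∀ (σ : Equiv.Perm V) (a b : V),
    (∀ x y : V, x ≠ a → x ≠ b → y ≠ a → y ≠ b → (G.Adj (σ x) (σ y) ↔ G.Adj x y)) →
      ∃ γ ∈ Γ, ∀ x, x ≠ a → x ≠ b → σ x = γ x) ∧
  (∀ σ : Equiv.Perm V, (∀ x y, G.Adj (σ x) (σ y) ↔ G.Adj x y) → σ ∈ Γ) ∧
  Reconstructible G ∧
  ∀ a b c : V, a ≠ b → a ≠ c → b ≠ c →
    ¬ ((∃ γ ∈ Γ, γ a = b) ∧ ∃ γ ∈ Γ, γ a = c) → DeterminedBy G a b c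

theorem result :
    (∀ (V : Type) [Fintype V] (Γ : Subgroup (Equiv.Perm V)) (G₀ D : SimpleGraph V) (δ : ℝ),
      Invariant Γ D → 0 < δ → δ ≤ 1 / 2 →
      (∀ x : V, (1 / 2 + δ) * ((regular Γ).ncard : ℝ) ≤ ({w ∈ regular Γ | D.Adj x w}.ncard : ℝ)) →
      1600 * (Nat.card Γ : ℝ) * Fintype.card V * Real.log (Fintype.card V) ≤
        δ ^ 2 * ((regular Γ).ncard : ℝ) ^ 2 →
      ({G | Changed Γ G₀ D G ∧ ¬ (Good Γ G ∧ Good Γ Gᶜ)}.ncard : ℝ) ≤
        Real.exp (-((regular Γ).ncard / (216 * Nat.card Γ))) *
          ({G | Changed Γ G₀ D G}.ncard : ℝ)) ∧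
    (∀ (V : Type) [Fintype V] (Γ : Subgroup (Equiv.Perm V)), 2 ≤ Fintype.card V →
      25600 * (Nat.card Γ : ℝ) * Fintype.card V * Real.log (Fintype.card V) ≤
        ((regular Γ).ncard : ℝ) ^ 2 →
      ({G | Invariant Γ G ∧ ¬ (Good Γ G ∧ Good Γ Gᶜ)}.ncard : ℝ) ≤
        Real.exp (-((regular Γ).ncard / (216 * Nat.card Γ))) *
          ({G | Invariant Γ G}.ncard : ℝ)) := by
  classical
  have hreg : ∀ (V : Type) [Fintype V] (Γ : Subgroup (Equiv.Perm V)),
      (regular Γ).ncard = (Pool.Agent.J4H85.SY.Rg Γ).card := by
    intro V _ Γ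
    rw [← Set.ncard_coe_finset]
    congr 1
    ext x
    rw [Finset.mem_coe, Pool.Agent.J4H85.SY.mem_Rg]
    exact Iff.rfl
  have hgood : ∀ (V : Type) [Fintype V] (Γ : Subgroup (Equiv.Perm V)) (G : SimpleGraph V),
      Good Γ G ↔ Pool.Agent.J4H85.SY.Gd Γ G := by
    intro V _ Γ G
    constructor
    · rintro ⟨h1, h2, h3, h4⟩
      exact ⟨fun φ hφ => h1 φ.1 φ.2.1 φ.2.2 (fun x y a b c d => hφ x y a b c d), h2, h3, h4⟩
    · rintro ⟨h1, h2, h3, h4⟩
      exact ⟨fun σ a b h => h1 (σ, a, b) (fun x y h1 h2 h3 h4 => h x y h1 h2 h3 h4), h2, h3, h4⟩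
  refine ⟨?_, ?_⟩
  · intro V _ Γ G₀ D δ hD hδ hδ1 hd H
    simp only [hgood, hreg] at H ⊢
    refine Pool.Agent.J4H85.SY.part_A Γ G₀ D hD δ hδ hδ1 (fun x => ?_) H
    have h1 := hd x
    rw [hreg] at h1
    refine h1.trans (le_of_eq ?_)
    rw [← Set.ncard_coe_finset]
    congr 2
    ext w
    rw [Finset.mem_coe, Finset.mem_filter, Pool.Agent.J4H85.SY.mem_Rg]
    exact Iff.rfl
  · intro V _ Γ hn H
    simp only [hgood, hreg] at H ⊢
    exact Pool.Agent.J4H85.SY.part_B Γ hn H

end Pool.Agent.Results.MP_552896_co.GraphsWithSymmetries
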